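import Pool.Agent.Helper89.MEF.H89_Rigid

set_option autoImplicit false

namespace Pool.Agent.Results.MP_1ac1d4_lc.Rigid

open ME

/-- The Dyment lattice (mass problems of partial functions under enumeration operators) is rigid. -/
theorem result :
  ∀ R : Set (ℕ →. ℕ) → Set (ℕ →. ℕ) → Prop,
    (∀ A B, R A B ↔ ∃ g : ℕ × List ℕ →. Unit, Partrec g ∧
       ∀ f ∈ B, ∃ h ∈ A, ∀ n : ℕ,
         ((∃ l : List ℕ, (g (n, l)).Dom ∧
              ∀ y ∈ l, (Nat.unpair y).2 ∈ f (Nat.unpair y).1) ↔
           (Nat.unpair n).2 ∈ h (Nat.unpair n).1)) →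
    ∀ F : Set (ℕ →. ℕ) → Set (ℕ →. ℕ),
      (∀ A B, R (F A) (F B) ↔ R A B) →
      (∀ B, ∃ A, R (F A) B ∧ R B (F A)) →
      ∀ A : Set (ℕ →. ℕ), R (F A) A ∧ R A (F A) := by
  intro R hR F hF hs A
  have hR' : ∀ A B, R A B ↔ PR (grf '' A) (grf '' B) := fun A B => (hR A B).trans R_iff_PR
  have tr : ∀ {A B C}, R A B → R B C → R A C := by
    intro A B C h1 h2
    rw [hR'] at *
    exact fin_PR_trans h1 h2
  -- the double translation
  have hio : ∀ C : Set (ℕ →. ℕ), R C (iof '' (grf '' C)) ∧ R (iof '' (grf '' C)) C := by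
    intro C
    obtain ⟨h1, h2⟩ := PE_iof (grf '' C)
    exact ⟨(hR' _ _).2 h1, (hR' _ _).2 h2⟩
  choose V hV1 hV2 using hs
  have hP : ∀ P Q : Set (Set ℕ), PR P Q ↔ R (iof '' P) (iof '' Q) := by
    intro P Q
    rw [hR']
    constructor
    · intro h
      exact fin_PR_trans (PE_iof P).2 (fin_PR_trans h (PE_iof Q).1)
    · intro h
      exact fin_PR_trans (PE_iof P).1 (fin_PR_trans h (PE_iof Q).2)
  let a : Aut :=
    { F := fun P => grf '' (F (iof '' P))
      G := fun P => grf '' (V (iof '' P))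
      F_mono := by
        intro P Q h
        rw [← hR', hF, ← hP]
        exact h
      G_mono := by
        intro P Q h
        rw [← hR', ← hF]
        exact tr (hV1 _) (tr ((hP _ _).1 h) (hV2 _))
      FG := by
        intro P
        have h1 := hio (V (iof '' P))
        constructor
        · refine fin_PR_trans ((hR' _ _).1 ?_) (PE_iof P).2
          exact tr ((hF _ _).2 h1.2) (hV1 _)
        · refine fin_PR_trans (PE_iof P).1 ((hR' _ _).1 ?_)
          exact tr (hV2 _) ((hF _ _).2 h1.1)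
      GF := by
        intro P
        have h1 := hio (F (iof '' P))
        constructor
        · refine fin_PR_trans ((hR' _ _).1 ?_) (PE_iof P).2
          rw [← hF]
          exact tr (hV1 _) h1.2
        · refine fin_PR_trans (PE_iof P).1 ((hR' _ _).1 ?_)
          rw [← hF]
          exact tr h1.1 (hV2 _) }
  have h3 := rigid a (grf '' A)
  have h4 := hio A
  have h5 : R (F A) A := by
    have : R (F (iof '' (grf '' A))) A := (hR' _ _).2 h3.1
    exact tr ((hF _ _).2 h4.1) this
  have h6 : R A (F A) := by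
    have : R A (F (iof '' (grf '' A))) := (hR' _ _).2 h3.2
    exact tr this ((hF _ _).2 h4.2)
  exact ⟨h5, h6⟩

end Pool.Agent.Results.MP_1ac1d4_lc.Rigid
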